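import Mathlib

/-!
# The coefficients of Hirzebruch's `L`-genus are at most one
-/

set_option autoImplicit false

namespace Pool.Agent.Q188.Pon

open Real

theorem bernoulli_le {k : ℕ} (hk : 1 ≤ k) : |(bernoulli (2 * k) : ℝ)| / (2 * k).factorial *
    (2 ^ (2 * k - 1) * π ^ (2 * k)) ≤ π ^ 2 / 6 := by
  have h1 := hasSum_zeta_nat (k := k) (by omega)
  have h3 : ∀ n : ℕ, (1 : ℝ) / (n : ℝ) ^ (2 * k) ≤ 1 / (n : ℝ) ^ 2 := by
    intro n
    rcases Nat.eq_zero_or_pos n with h | h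
    · subst h
      simp only [Nat.cast_zero, one_div, ne_eq, OfNat.ofNat_ne_zero, not_false_eq_true, zero_pow,
        inv_zero]
      rw [zero_pow (by omega), inv_zero]
    · have hn : (1 : ℝ) ≤ n := by exact_mod_cast h
      exact one_div_le_one_div_of_le (by positivity) (pow_le_pow_right₀ hn (by omega))
  have h4 := hasSum_le h3 h1 hasSum_zeta_two
  have h5 : 0 ≤ (-1 : ℝ) ^ (k + 1) * 2 ^ (2 * k - 1) * π ^ (2 * k) * bernoulli (2 * k) /
      (2 * k).factorial := h1.nonneg (fun n => by positivity)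
  rw [← abs_of_nonneg h5] at h4
  refine le_trans (le_of_eq ?_) h4
  rw [abs_div, abs_mul, abs_mul, abs_mul, abs_pow, abs_neg, abs_one, one_pow, one_mul,
    abs_of_pos (by positivity : (0 : ℝ) < 2 ^ (2 * k - 1)),
    abs_of_pos (by positivity : (0 : ℝ) < π ^ (2 * k)),
    abs_of_pos (by positivity : (0 : ℝ) < ((2 * k).factorial : ℝ))]
  ring

theorem coef_le {j : ℕ} (hj : 1 ≤ j) : |(-1 : ℝ) ^ j * (2 ^ (2 * j - 1) - 1) * 2 ^ (2 * j) *
    bernoulli (2 * j) / (2 * j).factorial| ≤ 1 := by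
  have h1 := bernoulli_le hj
  have hπ := Real.pi_gt_three
  have hf : (0 : ℝ) < (2 * j).factorial := by exact_mod_cast Nat.factorial_pos _
  set β : ℝ := |(bernoulli (2 * j) : ℝ)| / (2 * j).factorial with hβ
  have hβ0 : 0 ≤ β := by positivity
  have h2 : (1 : ℝ) ≤ 2 ^ (2 * j - 1) := one_le_pow₀ (by norm_num)
  have e1 : |(-1 : ℝ) ^ j * (2 ^ (2 * j - 1) - 1) * 2 ^ (2 * j) *
      bernoulli (2 * j) / (2 * j).factorial| = (2 ^ (2 * j - 1) - 1) * 2 ^ (2 * j) * β := by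
    rw [abs_div, abs_mul, abs_mul, abs_mul, abs_pow, abs_neg, abs_one, one_pow, one_mul,
      abs_of_nonneg (by linarith : (0 : ℝ) ≤ 2 ^ (2 * j - 1) - 1),
      abs_of_pos (by positivity : (0 : ℝ) < 2 ^ (2 * j)), abs_of_pos hf, hβ]
    ring
  rw [e1]
  have hp : (0 : ℝ) < π ^ (2 * j) := by positivity
  have h3 : (2 : ℝ) ^ (2 * j) * (π ^ 2 / 6) ≤ π ^ (2 * j) := by
    obtain ⟨i, rfl⟩ : ∃ i, j = i + 1 := ⟨j - 1, by omega⟩
    have h4 : (2 : ℝ) ^ (2 * i) ≤ π ^ (2 * i) := pow_le_pow_left₀ (by norm_num) (by linarith) _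
    have e2 : 2 * (i + 1) = 2 * i + 2 := by ring
    rw [e2, pow_add, pow_add]
    have h5 : (0 : ℝ) ≤ π ^ (2 * i) * π ^ 2 := by positivity
    calc (2 : ℝ) ^ (2 * i) * 2 ^ 2 * (π ^ 2 / 6) ≤ π ^ (2 * i) * 2 ^ 2 * (π ^ 2 / 6) := by
          refine mul_le_mul_of_nonneg_right (mul_le_mul_of_nonneg_right h4 (by norm_num))
            (by positivity)
      _ ≤ π ^ (2 * i) * π ^ 2 := by
          nlinarith
  have h6 : (2 ^ (2 * j - 1) - 1) * 2 ^ (2 * j) * β * π ^ (2 * j) ≤ 1 * π ^ (2 * j) := by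
    calc (2 ^ (2 * j - 1) - 1) * 2 ^ (2 * j) * β * π ^ (2 * j) ≤
        2 ^ (2 * j - 1) * 2 ^ (2 * j) * β * π ^ (2 * j) := by
          refine mul_le_mul_of_nonneg_right (mul_le_mul_of_nonneg_right
            (mul_le_mul_of_nonneg_right (by linarith) (by positivity)) hβ0) hp.le
      _ = 2 ^ (2 * j) * (β * (2 ^ (2 * j - 1) * π ^ (2 * j))) := by ring
      _ ≤ 2 ^ (2 * j) * (π ^ 2 / 6) := mul_le_mul_of_nonneg_left h1 (by positivity)
      _ ≤ 1 * π ^ (2 * j) := by rw [one_mul]; exact h3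
  exact le_of_mul_le_mul_right h6 hp

end Pool.Agent.Q188.Pon
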