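import Pool.Agent.W666.GB.Lift

/-!
# The trace forms do not see the constant curvature part

`PP τ F = ∑_σ sgn σ ∑_a ∏_i F_i(σ(i,0), σ(i,1), a_i, a_{τ i})`. If `F_j` is the curvature tensor of
constant curvature and `τ j ≠ j`, then `PP τ F = 0` by the Bianchi identity for `F_{τ j}`.
-/

set_option autoImplicit false

namespace Pool.Agent.Q188.Pon

open Finset Pool.Agent.W666.GB

variable {T : Type} [Fintype T] [DecidableEq T]

/-- the alternating sum of the products of the factors `F i` -/
noncomputable def PP (τ : Equiv.Perm T)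
    (F : T → T × Bool → T × Bool → T × Bool → T × Bool → ℝ) : ℝ :=
  ∑ σ : Equiv.Perm (T × Bool), sn σ * ∑ a : T → T × Bool,
    ∏ i, F i (σ (i, false)) (σ (i, true)) (a i) (a (τ i))

theorem sum_three {P : Type} [Fintype P] [DecidableEq P] (ρ : Equiv.Perm P) (hρ : sn ρ = 1)
    (h : Equiv.Perm P → ℝ) (h3 : ∀ σ, h σ + h (σ * ρ) + h (σ * ρ * ρ) = 0) :
    ∑ σ, sn σ * h σ = 0 := by
  have e1 : ∑ σ, sn σ * h (σ * ρ) = ∑ σ, sn σ * h σ := by
    rw [← Equiv.sum_comp (Equiv.mulRight ρ) (fun σ => sn σ * h σ)]
    refine Finset.sum_congr rfl fun σ _ => ?_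
    rw [Equiv.coe_mulRight, sn_mul, hρ, mul_one]
  have e2 : ∑ σ, sn σ * h (σ * ρ * ρ) = ∑ σ, sn σ * h σ := by
    rw [← e1, ← Equiv.sum_comp (Equiv.mulRight ρ) (fun σ => sn σ * h (σ * ρ))]
    refine Finset.sum_congr rfl fun σ _ => ?_
    rw [Equiv.coe_mulRight, sn_mul, hρ, mul_one]
  have h4 : ∑ σ, sn σ * (h σ + h (σ * ρ) + h (σ * ρ * ρ)) = 0 :=
    Finset.sum_eq_zero fun σ _ => by rw [h3, mul_zero]
  simp only [mul_add, Finset.sum_add_distrib, e1, e2] at h4
  linarith

theorem sum_update {K : Type} [Fintype K] [DecidableEq K] (k : T) (z : K) (F : (T → K) → ℝ) :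
    ∑ a : T → K, F (Function.update a k z) =
      Fintype.card K * ∑ a : T → K, (if a k = z then 1 else 0) * F a := by
  rw [← (Equiv.funSplitAt k K).symm.sum_comp, ← (Equiv.funSplitAt k K).symm.sum_comp,
    Fintype.sum_prod_type, Fintype.sum_prod_type]
  have e1 : ∀ y g, Function.update ((Equiv.funSplitAt k K).symm (y, g)) k z =
      (Equiv.funSplitAt k K).symm (z, g) := by
    intro y g
    ext i
    by_cases h : i = k
    · subst h; simp [Equiv.funSplitAt, Equiv.piSplitAt]
    · simp [Equiv.funSplitAt, Equiv.piSplitAt, h]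
  have e2 : ∀ y g, (Equiv.funSplitAt k K).symm (y, g) k = y := by
    intro y g
    simp [Equiv.funSplitAt, Equiv.piSplitAt]
  simp only [e1, e2]
  rw [Finset.sum_const, card_univ, nsmul_eq_mul]
  congr 1
  simp

theorem half_zero (τ : Equiv.Perm T) (F : T → T × Bool → T × Bool → T × Bool → T × Bool → ℝ)
    {j : T} (hj : τ j ≠ j)
    (hb : ∀ x y z w, F (τ j) x y z w + F (τ j) y z x w + F (τ j) z x y w = 0) (b : Bool) :
    ∑ σ : Equiv.Perm (T × Bool), sn σ * ∑ a : T → T × Bool,
      (if a (τ j) = σ (j, b) then 1 else 0) * ((if a j = σ (j, !b) then 1 else 0) *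
        ∏ i ∈ (univ : Finset T).erase j, F i (σ (i, false)) (σ (i, true)) (a i) (a (τ i))) = 0 := by
  set k := τ j with hk
  have hc : (Fintype.card (T × Bool) : ℝ) ≠ 0 := by
    have : 0 < Fintype.card (T × Bool) := Fintype.card_pos_iff.2 ⟨(j, b)⟩
    exact_mod_cast this.ne'
  have hkk : τ k ≠ k := by
    intro h
    rw [hk] at h
    exact hj (τ.injective h)
  apply mul_left_cancel₀ hc
  rw [mul_zero, Finset.mul_sum]
  have e1 : ∀ σ : Equiv.Perm (T × Bool), (Fintype.card (T × Bool) : ℝ) * (sn σ *
      ∑ a : T → T × Bool, (if a k = σ (j, b) then 1 else 0) *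
        ((if a j = σ (j, !b) then 1 else 0) *
        ∏ i ∈ (univ : Finset T).erase j, F i (σ (i, false)) (σ (i, true)) (a i) (a (τ i)))) =
      ∑ a : T → T × Bool, sn σ * ((if a j = σ (j, !b) then 1 else 0) *
        (F k (σ (k, false)) (σ (k, true)) (σ (j, b)) (a (τ k)) *
        ∏ i ∈ ((univ : Finset T).erase j).erase k,
          F i (σ (i, false)) (σ (i, true)) (a i) (a (τ i)))) := by
    intro σ
    rw [mul_left_comm, ← sum_update k (σ (j, b)) (fun a => (if a j = σ (j, !b) then 1 else 0) *
        ∏ i ∈ (univ : Finset T).erase j, F i (σ (i, false)) (σ (i, true)) (a i) (a (τ i))),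
      Finset.mul_sum]
    refine Finset.sum_congr rfl fun a _ => ?_
    rw [Function.update_of_ne hj.symm]
    congr 2
    rw [← Finset.mul_prod_erase _ _ (show k ∈ (univ : Finset T).erase j by simp [hj]),
      Function.update_self, Function.update_of_ne hkk]
    congr 1
    refine Finset.prod_congr rfl fun i hi => ?_
    rw [Finset.mem_erase, Finset.mem_erase] at hi
    have hti : τ i ≠ k := fun h => hi.2.1 (τ.injective h)
    rw [Function.update_of_ne hi.1, Function.update_of_ne hti]
  rw [Finset.sum_congr rfl fun σ _ => e1 σ, Finset.sum_comm]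
  refine Finset.sum_eq_zero fun a _ => ?_
  -- the cyclic permutation
  set ρ : Equiv.Perm (T × Bool) := Equiv.swap (j, b) (k, false) * Equiv.swap (k, false) (k, true)
    with hρ
  have hpq : ((j, b) : T × Bool) ≠ (k, false) := fun h => hj (congrArg Prod.fst h).symm
  have hpr : ((j, b) : T × Bool) ≠ (k, true) := fun h => hj (congrArg Prod.fst h).symm
  have hqr : ((k, false) : T × Bool) ≠ (k, true) := by simp
  have hs : sn ρ = 1 := by
    rw [hρ, sn_mul, sn, sn, Equiv.Perm.sign_swap hpq, Equiv.Perm.sign_swap hqr]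
    simp
  have rp : ρ (j, b) = (k, false) := by
    rw [hρ, Equiv.Perm.mul_apply, Equiv.swap_apply_of_ne_of_ne hpq hpr, Equiv.swap_apply_left]
  have rq : ρ (k, false) = (k, true) := by
    rw [hρ, Equiv.Perm.mul_apply, Equiv.swap_apply_left,
      Equiv.swap_apply_of_ne_of_ne hpr.symm hqr.symm]
  have rr : ρ (k, true) = (j, b) := by
    rw [hρ, Equiv.Perm.mul_apply, Equiv.swap_apply_right, Equiv.swap_apply_right]
  have r0 : ρ (j, !b) = (j, !b) := by
    have h1 : ((j, !b) : T × Bool) ≠ (j, b) := by simp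
    have h2 : ((j, !b) : T × Bool) ≠ (k, false) := fun h => hj (congrArg Prod.fst h).symm
    have h3 : ((j, !b) : T × Bool) ≠ (k, true) := fun h => hj (congrArg Prod.fst h).symm
    rw [hρ, Equiv.Perm.mul_apply, Equiv.swap_apply_of_ne_of_ne h2 h3,
      Equiv.swap_apply_of_ne_of_ne h1 h2]
  have ri : ∀ i, i ≠ j → i ≠ k → ∀ c, ρ (i, c) = (i, c) := by
    intro i hij hik c
    have h1 : ((i, c) : T × Bool) ≠ (j, b) := fun h => hij (congrArg Prod.fst h)
    have h2 : ((i, c) : T × Bool) ≠ (k, false) := fun h => hik (congrArg Prod.fst h)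
    have h3 : ((i, c) : T × Bool) ≠ (k, true) := fun h => hik (congrArg Prod.fst h)
    rw [hρ, Equiv.Perm.mul_apply, Equiv.swap_apply_of_ne_of_ne h2 h3,
      Equiv.swap_apply_of_ne_of_ne h1 h2]
  refine sum_three ρ hs (fun σ => (if a j = σ (j, !b) then 1 else 0) *
        (F k (σ (k, false)) (σ (k, true)) (σ (j, b)) (a (τ k)) *
        ∏ i ∈ ((univ : Finset T).erase j).erase k,
          F i (σ (i, false)) (σ (i, true)) (a i) (a (τ i)))) fun σ => ?_
  have e2 : ∀ σ : Equiv.Perm (T × Bool), ∏ i ∈ ((univ : Finset T).erase j).erase k,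
      F i ((σ * ρ) (i, false)) ((σ * ρ) (i, true)) (a i) (a (τ i)) =
      ∏ i ∈ ((univ : Finset T).erase j).erase k,
        F i (σ (i, false)) (σ (i, true)) (a i) (a (τ i)) := by
    intro σ
    refine Finset.prod_congr rfl fun i hi => ?_
    rw [Finset.mem_erase, Finset.mem_erase] at hi
    change F i (σ (ρ (i, false))) (σ (ρ (i, true))) (a i) (a (τ i)) = _
    rw [ri i hi.2.1 hi.1, ri i hi.2.1 hi.1]
  simp only [e2]
  simp only [Equiv.Perm.mul_apply, rp, rq, rr, r0]
  have h5 := hb (σ (k, false)) (σ (k, true)) (σ (j, b)) (a (τ k))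
  rw [← mul_add, ← mul_add, ← add_mul, ← add_mul, h5]
  ring

/-- **a factor of constant curvature does not contribute** -/
theorem PP_unit (τ : Equiv.Perm T) (F : T → T × Bool → T × Bool → T × Bool → T × Bool → ℝ)
    {j : T} (hj : τ j ≠ j) (hu : F j = unitCurv)
    (hb : ∀ x y z w, F (τ j) x y z w + F (τ j) y z x w + F (τ j) z x y w = 0) : PP τ F = 0 := by
  have h1 := half_zero τ F hj hb true
  have h2 := half_zero τ F hj hb false
  unfold PP
  rw [← sub_zero (∑ σ : Equiv.Perm (T × Bool), sn σ * ∑ a : T → T × Bool,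
    ∏ i, F i (σ (i, false)) (σ (i, true)) (a i) (a (τ i)))]
  have e1 : ∀ σ : Equiv.Perm (T × Bool), sn σ * ∑ a : T → T × Bool,
      ∏ i, F i (σ (i, false)) (σ (i, true)) (a i) (a (τ i)) =
      sn σ * (∑ a : T → T × Bool,
      (if a (τ j) = σ (j, true) then 1 else 0) * ((if a j = σ (j, !true) then 1 else 0) *
        ∏ i ∈ (univ : Finset T).erase j, F i (σ (i, false)) (σ (i, true)) (a i) (a (τ i)))) -
      sn σ * (∑ a : T → T × Bool,
      (if a (τ j) = σ (j, false) then 1 else 0) * ((if a j = σ (j, !false) then 1 else 0) *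
        ∏ i ∈ (univ : Finset T).erase j,
          F i (σ (i, false)) (σ (i, true)) (a i) (a (τ i)))) := by
    intro σ
    rw [← mul_sub, ← Finset.sum_sub_distrib]
    congr 1
    refine Finset.sum_congr rfl fun a _ => ?_
    rw [← Finset.mul_prod_erase univ _ (mem_univ j), hu]
    simp only [unitCurv, Bool.not_true, Bool.not_false, eq_comm (a := σ (j, false)),
      eq_comm (a := σ (j, true))]
    ring
  rw [sub_zero, Finset.sum_congr rfl fun σ _ => e1 σ, Finset.sum_sub_distrib, h1, h2, sub_zero]

theorem PP_sub (τ : Equiv.Perm T) (F : T → T × Bool → T × Bool → T × Bool → T × Bool → ℝ) (j : T)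
    (A B : T × Bool → T × Bool → T × Bool → T × Bool → ℝ) (c : ℝ) :
    PP τ (Function.update F j fun x y z w => A x y z w - c * B x y z w) =
      PP τ (Function.update F j A) - c * PP τ (Function.update F j B) := by
  have e1 : ∀ (G : T × Bool → T × Bool → T × Bool → T × Bool → ℝ)
      (σ : Equiv.Perm (T × Bool)) (a : T → T × Bool),
      ∏ i, (Function.update F j G) i (σ (i, false)) (σ (i, true)) (a i) (a (τ i)) =
      G (σ (j, false)) (σ (j, true)) (a j) (a (τ j)) *
        ∏ i ∈ (univ : Finset T).erase j,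
          F i (σ (i, false)) (σ (i, true)) (a i) (a (τ i)) := by
    intro G σ a
    rw [← Finset.mul_prod_erase univ _ (mem_univ j), Function.update_self]
    congr 1
    refine Finset.prod_congr rfl fun i hi => ?_
    rw [Function.update_of_ne (Finset.ne_of_mem_erase hi)]
  unfold PP
  simp only [e1, Finset.mul_sum]
  rw [← Finset.sum_sub_distrib]
  refine Finset.sum_congr rfl fun σ _ => ?_
  rw [← Finset.sum_sub_distrib]
  refine Finset.sum_congr rfl fun a _ => ?_
  ring

/-- **the trace forms of `R` and of `R - c` agree** -/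
theorem PP_weyl (τ : Equiv.Perm T) (hτ : ∀ i, τ i ≠ i)
    (R : T × Bool → T × Bool → T × Bool → T × Bool → ℝ) (c : ℝ)
    (hb : ∀ x y z w, R x y z w + R y z x w + R z x y w = 0) :
    PP τ (fun _ => R) = PP τ (fun _ x y z w => R x y z w - c * unitCurv x y z w) := by
  set W : T × Bool → T × Bool → T × Bool → T × Bool → ℝ :=
    fun x y z w => R x y z w - c * unitCurv x y z w with hW
  have hu : ∀ x y z w : T × Bool,
      unitCurv x y z w + unitCurv y z x w + unitCurv z x y w = 0 := by
    intro x y z w
    have s : ∀ p q : T × Bool, (if p = q then (1 : ℝ) else 0) = if q = p then 1 else 0 :=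
      fun p q => by simp only [eq_comm]
    simp only [unitCurv]
    rw [s y x, s z x, s z y]
    ring
  have hbW : ∀ x y z w, W x y z w + W y z x w + W z x y w = 0 := by
    intro x y z w
    have h1 := hb x y z w
    have h2 := hu x y z w
    simp only [hW]
    linear_combination h1 - c * h2
  have key : ∀ S : Finset T, PP τ (fun i => if i ∈ S then W else R) = PP τ (fun _ => R) := by
    intro S
    induction S using Finset.induction_on with
    | empty => simp
    | insert j S hj ih =>
      rw [← ih]
      have e1 : (fun i => if i ∈ insert j S then W else R) =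
          Function.update (fun i => if i ∈ S then W else R) j W := by
        funext i
        by_cases h : i = j
        · subst h; simp
        · simp [h]
      have e2 : (fun i => if i ∈ S then W else R) =
          Function.update (fun i => if i ∈ S then W else R) j R := by
        funext i
        by_cases h : i = j
        · subst h; simp [hj]
        · simp [h]
      rw [e1, hW, PP_sub, ← hW, ← e2]
      have e3 : PP τ (Function.update (fun i => if i ∈ S then W else R) j unitCurv) = 0 := by
        refine PP_unit τ _ (hτ j) (Function.update_self _ _ _) ?_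
        intro x y z w
        rw [Function.update_of_ne (hτ j)]
        split_ifs
        · exact hbW x y z w
        · exact hb x y z w
      rw [e3, mul_zero, sub_zero]
  have h := key univ
  simpa using h.symm

end Pool.Agent.Q188.Pon
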