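import Mathlib

/-!
# A product inequality of Finner's type

`∑_a ∏_i f_i(a_i, a_{τ i}) ≤ ∏_i ‖f_i‖` for nonnegative `f_i` and a permutation `τ` without fixed
points, `‖f‖` the Hilbert-Schmidt norm.
-/

set_option autoImplicit false

namespace Pool.Agent.Q188.Pon

open Finset

variable {I K : Type} [Fintype I] [DecidableEq I] [Fintype K] [DecidableEq K]

/-- the functions which agree with `a` off `S` -/
def Ag (S : Finset I) (a : I → K) : Finset (I → K) := univ.filter fun b => ∀ k, k ∉ S → b k = a k

theorem mem_Ag (S : Finset I) (a b : I → K) : b ∈ Ag S a ↔ ∀ k, k ∉ S → b k = a k := by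
  simp [Ag]

theorem sum_Ag_insert (S : Finset I) {j : I} (hj : j ∉ S) (a : I → K) (h : (I → K) → ℝ) :
    ∑ b ∈ Ag (insert j S) a, h b = ∑ x, ∑ b ∈ Ag S (Function.update a j x), h b := by
  rw [← Finset.sum_fiberwise (Ag (insert j S) a) (fun b => b j) h]
  refine Finset.sum_congr rfl fun x _ => ?_
  refine Finset.sum_congr ?_ fun _ _ => rfl
  ext b
  rw [Finset.mem_filter, mem_Ag, mem_Ag]
  constructor
  · rintro ⟨h1, h2⟩ k hk
    by_cases hkj : k = j
    · subst hkj; rw [Function.update_self]; exact h2
    · rw [Function.update_of_ne hkj]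
      exact h1 k (by simp [hkj, hk])
  · intro h1
    refine ⟨fun k hk => ?_, ?_⟩
    · rw [Finset.mem_insert, not_or] at hk
      have := h1 k hk.2
      rwa [Function.update_of_ne hk.1] at this
    · have := h1 j hj
      rwa [Function.update_self] at this

/-- the set over which the coordinate `k` is summed -/
def At (S : Finset I) (a : I → K) (k : I) : Finset K := if k ∈ S then univ else {a k}

/-- the partial norm of `f i` -/
noncomputable def ph (τ : Equiv.Perm I) (f : I → K → K → ℝ) (S : Finset I) (a : I → K) (i : I) : ℝ :=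
  Real.sqrt (∑ x ∈ At S a i, ∑ y ∈ At S a (τ i), f i x y ^ 2)

omit [Fintype I] [DecidableEq K] in
theorem ph_sq (τ : Equiv.Perm I) (f : I → K → K → ℝ) (S : Finset I) (a : I → K) (i : I) :
    ph τ f S a i ^ 2 = ∑ x ∈ At S a i, ∑ y ∈ At S a (τ i), f i x y ^ 2 :=
  Real.sq_sqrt (Finset.sum_nonneg fun _ _ => Finset.sum_nonneg fun _ _ => sq_nonneg _)

theorem finner_aux (τ : Equiv.Perm I) (hτ : ∀ i, τ i ≠ i) (f : I → K → K → ℝ)
    (hf : ∀ i x y, 0 ≤ f i x y) (S : Finset I) :
    ∀ a : I → K, ∑ b ∈ Ag S a, ∏ i, f i (b i) (b (τ i)) ≤ ∏ i, ph τ f S a i := by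
  induction S using Finset.induction_on with
  | empty =>
    intro a
    have h1 : Ag (∅ : Finset I) a = {a} := by
      ext b
      rw [mem_Ag, Finset.mem_singleton]
      constructor
      · intro h; funext k; exact h k (by simp)
      · rintro rfl k _; rfl
    rw [h1, Finset.sum_singleton]
    refine Finset.prod_le_prod (fun i _ => hf _ _ _) fun i _ => ?_
    unfold ph At
    simp only [Finset.notMem_empty, if_false, Finset.sum_singleton]
    rw [Real.sqrt_sq (hf _ _ _)]
  | insert j S hj ih =>
    intro a
    rw [sum_Ag_insert S hj]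
    refine (Finset.sum_le_sum fun x _ => ih (Function.update a j x)).trans ?_
    have hji : τ.symm j ≠ j := by
      intro h
      have := hτ j
      apply this
      conv_lhs => rw [← h]
      simp
    set l := τ.symm j with hl
    have hτl : τ l = j := by simp [hl]
    -- the factors which do not depend on `x`
    have e0 : ∀ x i, i ≠ j → i ≠ l → ph τ f S (Function.update a j x) i =
        ph τ f (insert j S) a i := by
      intro x i hij hil
      have hti : τ i ≠ j := by
        intro h; apply hil; rw [← hτl] at h; exact τ.injective h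
      have h1 : At S (Function.update a j x) i = At (insert j S) a i := by
        unfold At
        simp [Finset.mem_insert, hij]
      have h2 : At S (Function.update a j x) (τ i) = At (insert j S) a (τ i) := by
        unfold At
        simp [Finset.mem_insert, hti]
      unfold ph
      rw [h1, h2]
    -- the two others
    have ej : ∑ x, ph τ f S (Function.update a j x) j ^ 2 = ph τ f (insert j S) a j ^ 2 := by
      rw [ph_sq]
      have h1 : At (insert j S) a j = univ := by simp [At]
      rw [h1]
      refine Finset.sum_congr rfl fun x _ => ?_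
      rw [ph_sq]
      have h2 : At S (Function.update a j x) j = {x} := by simp [At, hj]
      have h3 : At S (Function.update a j x) (τ j) = At (insert j S) a (τ j) := by
        unfold At
        simp [Finset.mem_insert, hτ j]
      rw [h2, h3, Finset.sum_singleton]
    have el : ∑ x, ph τ f S (Function.update a j x) l ^ 2 = ph τ f (insert j S) a l ^ 2 := by
      rw [ph_sq]
      have h1 : At (insert j S) a (τ l) = univ := by simp [At, hτl]
      rw [h1, Finset.sum_comm]
      refine Finset.sum_congr rfl fun x _ => ?_
      rw [ph_sq]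
      have h2 : At S (Function.update a j x) (τ l) = {x} := by simp [At, hτl, hj]
      have h3 : At S (Function.update a j x) l = At (insert j S) a l := by
        unfold At
        simp [Finset.mem_insert, hji]
      rw [h2, h3]
      simp only [Finset.sum_singleton]
    have hlm : l ∈ (univ : Finset I).erase j := by simp [hji]
    have e1 : ∀ x, ∏ i, ph τ f S (Function.update a j x) i =
        (ph τ f S (Function.update a j x) j * ph τ f S (Function.update a j x) l) *
          ∏ i ∈ ((univ : Finset I).erase j).erase l, ph τ f (insert j S) a i := by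
      intro x
      rw [← Finset.mul_prod_erase univ _ (mem_univ j), ← Finset.mul_prod_erase _ _ hlm, ← mul_assoc]
      congr 1
      refine Finset.prod_congr rfl fun i hi => ?_
      rw [Finset.mem_erase, Finset.mem_erase] at hi
      exact e0 x i hi.2.1 hi.1
    simp only [e1]
    rw [← Finset.sum_mul, ← Finset.mul_prod_erase univ _ (mem_univ j),
      ← Finset.mul_prod_erase _ _ hlm, ← mul_assoc]
    refine mul_le_mul_of_nonneg_right ?_ (Finset.prod_nonneg fun _ _ => Real.sqrt_nonneg _)
    have hnn : ∀ i, 0 ≤ ph τ f (insert j S) a i := fun _ => Real.sqrt_nonneg _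
    refine (Real.sum_mul_le_sqrt_mul_sqrt _ _ _).trans (le_of_eq ?_)
    rw [ej, el, Real.sqrt_sq (hnn j), Real.sqrt_sq (hnn l)]

/-- **Finner's inequality** for cycles -/
theorem finner (τ : Equiv.Perm I) (hτ : ∀ i, τ i ≠ i) (f : I → K → K → ℝ)
    (hf : ∀ i x y, 0 ≤ f i x y) :
    ∑ a : I → K, ∏ i, f i (a i) (a (τ i)) ≤ ∏ i, Real.sqrt (∑ x, ∑ y, f i x y ^ 2) := by
  rcases isEmpty_or_nonempty (I → K) with h | ⟨⟨a⟩⟩
  · rw [Finset.univ_eq_empty, Finset.sum_empty]
    exact Finset.prod_nonneg fun _ _ => Real.sqrt_nonneg _
  · have h1 := finner_aux τ hτ f hf univ a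
    have h2 : Ag (univ : Finset I) a = univ := by
      ext b; simp [mem_Ag]
    rw [h2] at h1
    refine h1.trans (le_of_eq ?_)
    refine Finset.prod_congr rfl fun i _ => ?_
    unfold ph At
    simp

end Pool.Agent.Q188.Pon
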