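import Pool.Agent.W666.GB.Had
import Pool.Agent.W666.GB.MD

/-!
# Hadamard's inequality and the norm of a product of two-forms
-/

set_option autoImplicit false

namespace Pool.Agent.Q188.Pon

open Finset Pool.Agent.W666.GB

section had

variable {J : Type} [Fintype J] [DecidableEq J]

/-- Hadamard's inequality -/
theorem abs_det_le (A : Matrix J J ℝ) : |A.det| ≤ ∏ i, Real.sqrt (∑ j, A i j ^ 2) := by
  have hnn : 0 ≤ ∏ i, Real.sqrt (∑ j, A i j ^ 2) := Finset.prod_nonneg fun _ _ => Real.sqrt_nonneg _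
  by_cases h : ∃ i, ∑ j, A i j ^ 2 = 0
  · obtain ⟨i, hi⟩ := h
    have h0 : ∀ j, A i j = 0 := by
      intro j
      have := (Finset.sum_eq_zero_iff_of_nonneg fun j _ => sq_nonneg (A i j)).1 hi j (mem_univ j)
      exact (pow_eq_zero_iff two_ne_zero).1 this
    rw [Matrix.det_eq_zero_of_row_eq_zero i h0, abs_zero]
    exact hnn
  · push Not at h
    set d : J → ℝ := fun i => Real.sqrt (∑ j, A i j ^ 2) with hd
    have hpos : ∀ i, 0 < ∑ j, A i j ^ 2 := fun i =>
      lt_of_le_of_ne (Finset.sum_nonneg fun j _ => sq_nonneg _) (h i).symm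
    have hdpos : ∀ i, 0 < d i := fun i => Real.sqrt_pos.2 (hpos i)
    have hd2 : ∀ i, d i ^ 2 = ∑ j, A i j ^ 2 := fun i => Real.sq_sqrt (hpos i).le
    have h1 := det_bound (Matrix.of fun i j => (((d i)⁻¹ * A i j : ℝ) : ℂ))
    have h2 : ∑ i, ∑ j, ‖(Matrix.of fun i j => (((d i)⁻¹ * A i j : ℝ) : ℂ)) i j‖ ^ 2 =
        Fintype.card J := by
      have : ∀ i, ∑ j, ‖(Matrix.of fun i j => (((d i)⁻¹ * A i j : ℝ) : ℂ)) i j‖ ^ 2 = 1 := by
        intro i
        have e1 : ∀ j, ‖(Matrix.of fun i j => (((d i)⁻¹ * A i j : ℝ) : ℂ)) i j‖ ^ 2 =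
            (d i)⁻¹ ^ 2 * A i j ^ 2 := by
          intro j
          rw [Matrix.of_apply, Complex.norm_real, Real.norm_eq_abs, sq_abs, mul_pow]
        simp only [e1]
        rw [← Finset.mul_sum, ← hd2 i, ← mul_pow, inv_mul_cancel₀ (hdpos i).ne', one_pow]
      rw [Finset.sum_congr rfl fun i _ => this i]
      simp
    have h3 : (Matrix.of fun i j => (((d i)⁻¹ * A i j : ℝ) : ℂ)).det =
        (((∏ i, (d i)⁻¹) * A.det : ℝ) : ℂ) := by
      have e1 : (Matrix.of fun i j => (((d i)⁻¹ * A i j : ℝ) : ℂ)) =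
          (algebraMap ℝ ℂ).mapMatrix (Matrix.of fun i j => (d i)⁻¹ * A i j) := by
        ext i j
        simp
      rw [e1, ← RingHom.map_det, Matrix.det_mul_column]
      rfl
    rw [h2, h3, Complex.norm_real, Real.norm_eq_abs, sq_abs] at h1
    have h4 : (((Fintype.card J : ℝ)) / Fintype.card J) ^ Fintype.card J ≤ 1 := by
      rcases Nat.eq_zero_or_pos (Fintype.card J) with h | h
      · rw [h]; simp
      · rw [div_self (by exact_mod_cast h.ne'), one_pow]
    have h5 : ((∏ i, (d i)⁻¹) * A.det) ^ 2 ≤ 1 := h1.trans h4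
    have h6 : |(∏ i, (d i)⁻¹) * A.det| ≤ 1 := by
      rw [← sq_le_one_iff_abs_le_one]; exact h5
    have h7 : 0 < ∏ i, d i := Finset.prod_pos fun i _ => hdpos i
    rw [Finset.prod_inv_distrib, abs_mul, abs_of_pos (inv_pos.2 h7), inv_mul_le_iff₀ h7, mul_one]
      at h6
    exact h6

omit [DecidableEq J] in
/-- `∑ r ≤ √N √(∑ r²)` -/
theorem sum_le_sqrt (r : J → ℝ) :
    ∑ x, r x ≤ Real.sqrt (Fintype.card J) * Real.sqrt (∑ x, r x ^ 2) := by
  rw [← Real.sqrt_mul (by positivity)]
  refine Real.le_sqrt_of_sq_le ?_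
  have := sq_sum_le_card_mul_sum_sq (s := (univ : Finset J)) (f := r)
  rw [Finset.card_univ] at this
  exact this

end had

section wed

variable {T : Type} [Fintype T] [DecidableEq T]

/-- the coefficient of the product of the two-forms `ω i` (up to the factor `2 ^ |T|`) -/
noncomputable def wed (ω : T → T × Bool → T × Bool → ℝ) : ℝ :=
  ∑ σ : Equiv.Perm (T × Bool), sn σ * ∏ i, ω i (σ (i, false)) (σ (i, true))

/-- the matrix of one term of the decomposition of the forms into rows -/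
noncomputable def rowM (ω : T → T × Bool → T × Bool → ℝ) (x : T → T × Bool) :
    Matrix (T × Bool) (T × Bool) ℝ :=
  Matrix.of fun k y => if k.2 then ω k.1 (x k.1) y else (if x k.1 = y then 1 else 0)

theorem wed_eq (ω : T → T × Bool → T × Bool → ℝ) : wed ω = ∑ x, (rowM ω x).det := by
  have h1 : ∀ x, (rowM ω x).det = ∑ σ : Equiv.Perm (T × Bool), sn σ *
      ∏ i, ((if x i = σ (i, false) then 1 else 0) * ω i (x i) (σ (i, true))) := by
    intro x
    rw [← Matrix.det_transpose, Matrix.det_apply']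
    refine Finset.sum_congr rfl fun σ _ => ?_
    rw [sn, Fintype.prod_prod_type]
    congr 1
    refine Finset.prod_congr rfl fun i _ => ?_
    rw [Fintype.prod_bool]
    simp only [Matrix.transpose_apply, rowM, Matrix.of_apply, if_true, Bool.false_eq_true, if_false]
    ring
  simp only [h1]
  rw [Finset.sum_comm, wed]
  refine Finset.sum_congr rfl fun σ _ => ?_
  rw [← Finset.mul_sum]
  congr 1
  have h2 := Finset.prod_univ_sum (fun _ : T => (univ : Finset (T × Bool)))
    (fun i z => (if z = σ (i, false) then (1 : ℝ) else 0) * ω i z (σ (i, true)))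
  rw [Fintype.piFinset_univ] at h2
  rw [← h2]
  refine Finset.prod_congr rfl fun i _ => ?_
  simp

theorem wed_le (ω : T → T × Bool → T × Bool → ℝ) :
    |wed ω| ≤ ∏ i, (Real.sqrt (Fintype.card (T × Bool)) * Real.sqrt (∑ x, ∑ y, ω i x y ^ 2)) := by
  rw [wed_eq]
  refine (Finset.abs_sum_le_sum_abs _ _).trans ?_
  have h1 : ∀ x : T → T × Bool, |(rowM ω x).det| ≤ ∏ i, Real.sqrt (∑ y, ω i (x i) y ^ 2) := by
    intro x
    refine (abs_det_le _).trans (le_of_eq ?_)
    rw [Fintype.prod_prod_type]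
    refine Finset.prod_congr rfl fun i _ => ?_
    rw [Fintype.prod_bool]
    simp only [rowM, Matrix.of_apply, if_true, Bool.false_eq_true, if_false]
    have : ∑ y, (if x i = y then (1 : ℝ) else 0) ^ 2 = 1 := by simp
    rw [this, Real.sqrt_one, mul_one]
  refine (Finset.sum_le_sum fun x _ => h1 x).trans ?_
  have h2 := Finset.prod_univ_sum (fun _ : T => (univ : Finset (T × Bool)))
    (fun i z => Real.sqrt (∑ y, ω i z y ^ 2))
  rw [Fintype.piFinset_univ] at h2
  rw [← h2]
  refine Finset.prod_le_prod (fun i _ => Finset.sum_nonneg fun _ _ => Real.sqrt_nonneg _) ?_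
  intro i _
  refine (sum_le_sqrt _).trans (le_of_eq ?_)
  congr 2
  refine Finset.sum_congr rfl fun x _ => ?_
  exact Real.sq_sqrt (Finset.sum_nonneg fun _ _ => sq_nonneg _)

end wed

end Pool.Agent.Q188.Pon
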