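import Pool.Agent.Q188.Pon.Bia
import Pool.Agent.Q188.Pon.Wed
import Pool.Agent.Q188.Pon.Fin
import Pool.Agent.Q188.EinN.Pt

/-!
# Bounds for the trace forms of a curvature tensor
-/

set_option autoImplicit false

namespace Pool.Agent.Q188.Pon

open Finset Pool.Agent.W666.GB Pool.Agent.Q188.EinN

section comp

variable {T : Type} [Fintype T] [DecidableEq T]

theorem PP_eq_wed (τ : Equiv.Perm T) (W : T × Bool → T × Bool → T × Bool → T × Bool → ℝ) :
    PP τ (fun _ => W) = ∑ a : T → T × Bool, wed (fun i x y => W x y (a i) (a (τ i))) := by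
  unfold PP wed
  simp only [Finset.mul_sum]
  rw [Finset.sum_comm]

theorem PP_le (τ : Equiv.Perm T) (hτ : ∀ i, τ i ≠ i)
    (W : T × Bool → T × Bool → T × Bool → T × Bool → ℝ) :
    |PP τ (fun _ => W)| ≤ (Real.sqrt (Fintype.card (T × Bool)) *
      Real.sqrt (∑ x, ∑ y, ∑ z, ∑ w, W x y z w ^ 2)) ^ Fintype.card T := by
  rw [PP_eq_wed]
  refine (Finset.abs_sum_le_sum_abs _ _).trans ?_
  refine (Finset.sum_le_sum fun a _ => wed_le _).trans ?_
  set f : T → T × Bool → T × Bool → ℝ := fun _ z w => Real.sqrt (∑ x, ∑ y, W x y z w ^ 2) with hf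
  have h0 : ∀ z w, 0 ≤ ∑ x, ∑ y, W x y z w ^ 2 := fun z w =>
    Finset.sum_nonneg fun _ _ => Finset.sum_nonneg fun _ _ => sq_nonneg _
  have h1 : ∀ a : T → T × Bool, ∏ i, (Real.sqrt (Fintype.card (T × Bool)) *
      Real.sqrt (∑ x, ∑ y, W x y (a i) (a (τ i)) ^ 2)) =
      Real.sqrt (Fintype.card (T × Bool)) ^ Fintype.card T * ∏ i, f i (a i) (a (τ i)) := by
    intro a
    rw [Finset.prod_mul_distrib, Finset.prod_const, Finset.card_univ]
  rw [Finset.sum_congr rfl fun a _ => h1 a, ← Finset.mul_sum, mul_pow]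
  refine mul_le_mul_of_nonneg_left ?_ (by positivity)
  refine (finner τ hτ f fun _ _ _ => Real.sqrt_nonneg _).trans (le_of_eq ?_)
  have h2 : ∀ i : T, ∑ z, ∑ w, f i z w ^ 2 = ∑ x, ∑ y, ∑ z, ∑ w, W x y z w ^ 2 := by
    intro i
    have e1 : ∀ z w, f i z w ^ 2 = ∑ x, ∑ y, W x y z w ^ 2 := fun z w => Real.sq_sqrt (h0 z w)
    simp only [e1]
    have e2 : ∑ z, ∑ w, ∑ x, ∑ y, W x y z w ^ 2 =
        ∑ q : (T × Bool) × (T × Bool), ∑ p : (T × Bool) × (T × Bool), W p.1 p.2 q.1 q.2 ^ 2 := by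
      simp only [Fintype.sum_prod_type (f := fun p : (T × Bool) × (T × Bool) => _)]
    have e3 : ∑ x, ∑ y, ∑ z, ∑ w, W x y z w ^ 2 =
        ∑ p : (T × Bool) × (T × Bool), ∑ q : (T × Bool) × (T × Bool), W p.1 p.2 q.1 q.2 ^ 2 := by
      simp only [Fintype.sum_prod_type (f := fun p : (T × Bool) × (T × Bool) => _)]
    rw [e2, e3, Finset.sum_comm]
  rw [Finset.prod_congr rfl fun i _ => by rw [h2 i], Finset.prod_const, Finset.card_univ]

end comp

variable {V : Type} [NormedAddCommGroup V] [InnerProductSpace ℝ V] {m : ℕ}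

/-- **the trace forms are bounded by the Weyl energy** -/
theorem tr_le (e : OrthonormalBasis (Fin m × Bool) ℝ V) {R : V → V → V → V → ℝ} (hR : AlgCurv R)
    (c : ℝ) (τ : Equiv.Perm (Fin m)) :
    |PP τ (fun _ x y z w => R (e x) (e y) (e z) (e w))| ≤
      (Real.sqrt (2 * m) * Real.sqrt (weylSq e R c)) ^ m := by
  by_cases hτ : ∀ i, τ i ≠ i
  · rw [PP_weyl τ hτ (fun x y z w => R (e x) (e y) (e z) (e w)) c
      fun x y z w => hR.bianchi _ _ _ _]
    refine (PP_le τ hτ _).trans (le_of_eq ?_)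
    have h1 : (Fintype.card (Fin m × Bool) : ℝ) = 2 * m := by
      rw [Fintype.card_prod, Fintype.card_fin, Fintype.card_bool]; push_cast; ring
    have h2 : weylSq e R c = ∑ x, ∑ y, ∑ z, ∑ w,
        (R (e x) (e y) (e z) (e w) - c * unitCurv x y z w) ^ 2 := by
      unfold weylSq
      simp only [unitCurv, inner_e]
    rw [h1, h2, Fintype.card_fin]
  · push Not at hτ
    obtain ⟨i, hi⟩ := hτ
    have h0 : PP τ (fun _ x y z w => R (e x) (e y) (e z) (e w)) = 0 := by
      unfold PP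
      refine Finset.sum_eq_zero fun σ _ => ?_
      rw [Finset.sum_eq_zero, mul_zero]
      intro a _
      refine Finset.prod_eq_zero (mem_univ i) ?_
      rw [hi]
      exact hR.self34 _ _ _
    rw [h0, abs_zero]
    positivity

/-- the elementary estimate -/
theorem num_le (hm : 3 ≤ m) {A κ N c : ℝ} (hA : 1 ≤ A) (hκ : 0 < κ) (hN : 0 ≤ N) (hc0 : 0 ≤ c)
    (hc : c ≤ 1 / (2 * (12 * A) ^ 3)) (h : N ≤ (c * κ) ^ 2 * (2 * m)) :
    A ^ m * (1 / (4 * Real.pi) ^ m * (Real.sqrt (2 * m) * Real.sqrt N) ^ m) ≤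
      1 / 2 * (roundGB m κ * (N / (8 * (2 * m - 1) * (2 * m - 3) * κ ^ 2))) := by
  have hmR : (3 : ℝ) ≤ m := by exact_mod_cast hm
  have hm0 : (0 : ℝ) < m := by linarith
  have hA0 : 0 < A := by linarith
  have hπ := Real.pi_pos
  have hs0 : 0 < Real.sqrt (2 * m) := Real.sqrt_pos.2 (by linarith)
  have hs2 : Real.sqrt (2 * m) ^ 2 = 2 * m := Real.sq_sqrt (by linarith)
  set w : ℝ := Real.sqrt N / (Real.sqrt (2 * m) * κ) with hw
  have hw0 : 0 ≤ w := by positivity
  have hwN : Real.sqrt N = w * κ * Real.sqrt (2 * m) := by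
    rw [hw]; field_simp
  have hN2 : N = w ^ 2 * κ ^ 2 * (2 * m) := by
    rw [← Real.sq_sqrt hN, hwN, mul_pow, mul_pow, hs2]
  have hwc : w ≤ c := by
    have h1 : w ^ 2 ≤ c ^ 2 := by
      rw [hN2] at h
      have h2 : w ^ 2 * (κ ^ 2 * (2 * m)) ≤ c ^ 2 * (κ ^ 2 * (2 * m)) := by linarith
      exact le_of_mul_le_mul_right h2 (by positivity)
    exact (sq_le_sq₀ hw0 hc0).1 h1
  -- the power of `w`
  have h12 : 2 * w ≤ 1 / (12 * A) ^ 3 := by
    have h1 := hwc.trans hc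
    have h2 : 2 * (1 / (2 * (12 * A) ^ 3)) = 1 / (12 * A) ^ 3 := by
      field_simp
    linarith
  have hpow : A ^ m * (2 * w) ^ m ≤ w ^ 2 / (32 * m) := by
    have hsplit : (2 * w) ^ m = (2 * w) ^ (m - 2) * (2 * w) ^ 2 := by
      rw [← pow_add]; congr 1; omega
    have h1 : (2 * w) ^ (m - 2) ≤ (1 / (12 * A) ^ 3) ^ (m - 2) :=
      pow_le_pow_left₀ (by positivity) h12 _
    have h2 : (1 / (12 * A) ^ 3) ^ (m - 2) ≤ 1 / (12 * A) ^ m := by
      rw [div_pow, one_pow, ← pow_mul]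
      refine one_div_le_one_div_of_le (by positivity) ?_
      exact pow_le_pow_right₀ (by linarith) (by omega)
    have h3 : (128 * m : ℝ) ≤ 12 ^ m := by
      have h4 : ∀ k : ℕ, 3 ≤ k → 128 * k ≤ 12 ^ k := by
        intro k hk
        induction k, hk using Nat.le_induction with
        | base => norm_num
        | succ k hk ih => rw [pow_succ]; omega
      exact_mod_cast h4 m hm
    calc A ^ m * (2 * w) ^ m = A ^ m * ((2 * w) ^ (m - 2) * (2 * w) ^ 2) := by rw [hsplit]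
      _ ≤ A ^ m * (1 / (12 * A) ^ m * (2 * w) ^ 2) :=
        mul_le_mul_of_nonneg_left (mul_le_mul_of_nonneg_right (h1.trans h2) (by positivity))
          (by positivity)
      _ = 4 * w ^ 2 / 12 ^ m := by
        rw [mul_pow 12 A]
        field_simp
        ring
      _ ≤ 4 * w ^ 2 / (128 * m) :=
        div_le_div_of_nonneg_left (by positivity) (by positivity) h3
      _ = w ^ 2 / (32 * m) := by
        field_simp
        ring
  -- the factor
  have hfac : (m : ℝ) ^ m * m.factorial ≤ (2 * m).factorial := by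
    have h1 : m.factorial * (m + 1) ^ m ≤ (m + m).factorial := Nat.factorial_mul_pow_le_factorial
    have h2 : m ^ m ≤ (m + 1) ^ m := Nat.pow_le_pow_left (by omega) _
    have h3 : m ^ m * m.factorial ≤ (2 * m).factorial := by
      calc m ^ m * m.factorial ≤ (m + 1) ^ m * m.factorial := Nat.mul_le_mul_right _ h2
        _ = m.factorial * (m + 1) ^ m := Nat.mul_comm _ _
        _ ≤ (m + m).factorial := h1
        _ = (2 * m).factorial := by rw [two_mul]
    exact_mod_cast h3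
  have hf0 : (0 : ℝ) < m.factorial := by exact_mod_cast Nat.factorial_pos m
  have hround : (m : ℝ) ^ m * κ ^ m / (4 * Real.pi) ^ m ≤ roundGB m κ := by
    unfold roundGB
    have h1 : (m : ℝ) ^ m ≤ (2 * m).factorial / m.factorial := by
      rw [le_div_iff₀ hf0]
      exact hfac
    calc (m : ℝ) ^ m * κ ^ m / (4 * Real.pi) ^ m ≤
        (2 * m).factorial / m.factorial * κ ^ m / (4 * Real.pi) ^ m := by
          refine div_le_div_of_nonneg_right ?_ (by positivity)
          exact mul_le_mul_of_nonneg_right h1 (by positivity)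
      _ = _ := by field_simp
  have hr0 : 0 < roundGB m κ := roundGB_pos hκ
  have e1 : A ^ m * (1 / (4 * Real.pi) ^ m * (Real.sqrt (2 * m) * Real.sqrt N) ^ m) =
      (m : ℝ) ^ m * κ ^ m / (4 * Real.pi) ^ m * (A ^ m * (2 * w) ^ m) := by
    have : Real.sqrt (2 * m) * Real.sqrt N = m * κ * (2 * w) := by
      rw [hwN]
      have : Real.sqrt (2 * m) * (w * κ * Real.sqrt (2 * m)) =
        w * κ * Real.sqrt (2 * m) ^ 2 := by ring
      rw [this, hs2]
      ring
    rw [this, mul_pow, mul_pow]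
    field_simp
    ring
  rw [e1]
  have p1 : (0 : ℝ) < 2 * m - 1 := by linarith
  have p3 : (0 : ℝ) < 2 * m - 3 := by linarith
  have e2 : w ^ 2 / (32 * m) ≤ 1 / 2 * (N / (8 * (2 * m - 1) * (2 * m - 3) * κ ^ 2)) := by
    have e3 : 1 / 2 * (N / (8 * (2 * m - 1) * (2 * m - 3) * κ ^ 2)) =
        w ^ 2 * (2 * m) / (16 * ((2 * m - 1) * (2 * m - 3))) := by
      rw [hN2]
      field_simp
      ring
    rw [e3, div_le_div_iff₀ (by positivity) (by positivity)]
    have h1 : (2 * m - 1) * (2 * m - 3) ≤ 4 * (m : ℝ) ^ 2 := by nlinarith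
    have h2 := mul_le_mul_of_nonneg_left h1 (by positivity : 0 ≤ 16 * w ^ 2)
    nlinarith
  calc (m : ℝ) ^ m * κ ^ m / (4 * Real.pi) ^ m * (A ^ m * (2 * w) ^ m) ≤
      roundGB m κ * (w ^ 2 / (32 * m)) := mul_le_mul hround hpow (by positivity) hr0.le
    _ ≤ roundGB m κ * (1 / 2 * (N / (8 * (2 * m - 1) * (2 * m - 3) * κ ^ 2))) :=
      mul_le_mul_of_nonneg_left e2 hr0.le
    _ = _ := by ring

/-- the constant -/
noncomputable def cc (A : ℝ) : ℝ := min (1 / (2 * (12 * A) ^ 3)) (1 / (16 * Q ^ 3))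

theorem cc_pos {A : ℝ} (hA : 1 ≤ A) : 0 < cc A := by
  have hQ := Q_ge
  unfold cc
  refine lt_min (by positivity) (by positivity)

/-- **comparison of the trace forms with the Gauss-Bonnet-Chern integrand** -/
theorem pt_le (hm : 3 ≤ m) (e : OrthonormalBasis (Fin m × Bool) ℝ V) {R : V → V → V → V → ℝ}
    (hR : AlgCurv R) {A s κ : ℝ} (hA : 1 ≤ A) (hs : s = 1 ∨ s = -1) (hκ : 0 < κ)
    (hE : ∀ v w : V, ∑ i, R (e i) v (e i) w = (2 * m - 1) * (s * κ) * inner ℝ v w)
    (hN : weylSq e R (s * κ) ≤ (cc A * κ) ^ 2 * (2 * m)) (τ : Equiv.Perm (Fin m)) :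
    A ^ m * (1 / (4 * Real.pi) ^ m * |PP τ (fun _ x y z w => R (e x) (e y) (e z) (e w))|) ≤
      s ^ m * gbc e R - roundGB m κ := by
  have hmR : (3 : ℝ) ≤ m := by exact_mod_cast hm
  have hQ := Q_ge
  have hc0 := (cc_pos hA).le
  have hA0 : 0 < A := by linarith
  have hπ := Real.pi_pos
  have hW0 : 0 ≤ weylSq e R (s * κ) := weylSq_nonneg e R _
  have hN' : weylSq e R (s * κ) ≤ (1 / (16 * Q ^ 3) * κ * (2 * m)) ^ 2 := by
    refine hN.trans ?_
    have h1 : cc A ≤ 1 / (16 * Q ^ 3) := min_le_right _ _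
    have h2 : (cc A * κ) ^ 2 ≤ (1 / (16 * Q ^ 3) * κ) ^ 2 :=
      pow_le_pow_left₀ (by positivity) (mul_le_mul_of_nonneg_right h1 hκ.le) 2
    have h3 : (2 * m : ℝ) ≤ (2 * m) ^ 2 := by nlinarith
    calc (cc A * κ) ^ 2 * (2 * m) ≤ (1 / (16 * Q ^ 3) * κ) ^ 2 * (2 * m) ^ 2 :=
          mul_le_mul h2 h3 (by positivity) (by positivity)
      _ = _ := by ring
  obtain ⟨h1, h2⟩ := pt e (by omega) hR hs hκ hE hN'
  have p1 : (0 : ℝ) < 2 * m - 1 := by linarith
  have p3 : (0 : ℝ) < 2 * m - 3 := by linarith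
  have hr0 : 0 < roundGB m κ := roundGB_pos hκ
  have hE0 : 0 ≤ roundGB m κ * (weylSq e R (s * κ) /
      (8 * (2 * m - 1) * (2 * m - 3) * κ ^ 2)) := by positivity
  have h3 := (abs_le.1 (h1.trans (mul_le_mul_of_nonneg_right h2 hE0))).1
  have h4 := num_le hm hA hκ hW0 hc0 (min_le_left _ _) hN
  have h5 := tr_le e hR (s * κ) τ
  have h6 : A ^ m * (1 / (4 * Real.pi) ^ m *
      |PP τ (fun _ x y z w => R (e x) (e y) (e z) (e w))|) ≤
      A ^ m * (1 / (4 * Real.pi) ^ m *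
        (Real.sqrt (2 * m) * Real.sqrt (weylSq e R (s * κ))) ^ m) :=
    mul_le_mul_of_nonneg_left (mul_le_mul_of_nonneg_left h5 (by positivity)) (by positivity)
  linarith

/-- the two forms of the hypothesis -/
theorem near (hm : 3 ≤ m) (e : OrthonormalBasis (Fin m × Bool) ℝ V) {R : V → V → V → V → ℝ}
    (hR : AlgCurv R) {A c κ : ℝ} (hA : 1 ≤ A) (hκ : 0 < κ)
    (h : weylSq e R c ≤ (3 / 4 * cc A * κ) ^ 2 * (2 * m) ∨
      ∀ x y : V, ‖x‖ = 1 → ‖y‖ = 1 → inner ℝ x y = 0 →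
        |R x y x y - c| ≤ 3 / 4 * cc A * κ / (2 * m)) :
    weylSq e R c ≤ (cc A * κ) ^ 2 * (2 * m) := by
  have hmR : (3 : ℝ) ≤ m := by exact_mod_cast hm
  have hc0 := cc_pos hA
  rcases h with h | h
  · refine h.trans ?_
    refine mul_le_mul_of_nonneg_right ?_ (by positivity)
    refine pow_le_pow_left₀ (by positivity) ?_ 2
    refine mul_le_mul_of_nonneg_right ?_ hκ.le
    linarith
  · have hs0 : 0 < Real.sqrt (2 * m) := Real.sqrt_pos.2 (by linarith)
    have hs2 : Real.sqrt (2 * m) ^ 2 = 2 * m := Real.sq_sqrt (by linarith)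
    have aux : ∀ q u : ℝ, 0 < u → q * κ / u ^ 2 = q / u * κ / u := by
      intro q u hu
      field_simp
    have h1 := weyl_of_sec e (by omega) hR (κ := κ) (c := c)
      (t := 3 / 4 * cc A / Real.sqrt (2 * m)) (by positivity) hκ (fun x y hx hy hxy => by
        refine (h x y hx hy hxy).trans (le_of_eq ?_)
        rw [← aux _ _ hs0, hs2])
    refine h1.trans (le_of_eq ?_)
    have : 4 / 3 * (3 / 4 * cc A / Real.sqrt (2 * m)) * κ * (2 * m) =
        cc A * κ * ((2 * m) / Real.sqrt (2 * m)) := by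
      field_simp
    rw [this, mul_pow, div_pow, hs2]
    field_simp

/-! ### multiplicative sequences -/

theorem prod_parts_le (b : ℕ → ℝ) {B : ℝ} (hB : 0 ≤ B) (hb : ∀ k, 1 ≤ k → |b k| ≤ B ^ k)
    (s : Multiset ℕ) (hs : ∀ k ∈ s, 1 ≤ k) : |(s.map b).prod| ≤ B ^ s.sum := by
  induction s using Multiset.induction_on with
  | empty => simp
  | cons a s ih =>
    rw [Multiset.map_cons, Multiset.prod_cons, Multiset.sum_cons, pow_add, abs_mul]
    have h1 := ih fun k hk => hs k (Multiset.mem_cons_of_mem hk)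
    have h2 := hb a (hs a (Multiset.mem_cons_self a s))
    exact mul_le_mul h2 h1 (abs_nonneg _) (pow_nonneg hB _)

theorem coef_sum_le (b : ℕ → ℝ) {B : ℝ} (hB : 0 ≤ B) (hb : ∀ k, 1 ≤ k → |b k| ≤ B ^ k) (m : ℕ) :
    ∑ τ : Equiv.Perm (Fin m), |1 / (m.factorial : ℝ) * (τ.partition.parts.map b).prod| ≤
      B ^ m := by
  have hf0 : (0 : ℝ) < m.factorial := by exact_mod_cast Nat.factorial_pos m
  have h1 : ∀ τ : Equiv.Perm (Fin m), |1 / (m.factorial : ℝ) * (τ.partition.parts.map b).prod| ≤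
      1 / (m.factorial : ℝ) * B ^ m := by
    intro τ
    rw [abs_mul, abs_of_pos (by positivity : (0 : ℝ) < 1 / m.factorial)]
    refine mul_le_mul_of_nonneg_left ?_ (by positivity)
    have h2 := prod_parts_le b hB hb τ.partition.parts fun k hk => τ.partition.parts_pos hk
    have h3 : τ.partition.parts.sum = m := τ.partition.parts_sum.trans (Fintype.card_fin m)
    rw [h3] at h2
    exact h2
  refine (Finset.sum_le_sum fun τ _ => h1 τ).trans (le_of_eq ?_)
  rw [Finset.sum_const, Finset.card_univ, Fintype.card_perm, Fintype.card_fin, nsmul_eq_mul]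
  field_simp

end Pool.Agent.Q188.Pon
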